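import Pool.Agent.H448R3.Alloc

set_option autoImplicit false

/-! Many rounds of evasion: a computable function evading short lists. -/

namespace Pool.Agent.V11258.IOE

open Helper743 H448R3

/-- the mass problem `IOE(h)` -/
def IOE (h : ℕ → ℕ) : Set (ℕ → ℕ) :=
  {f | ∀ r : ℕ → ℕ, Computable r → (∀ n, r n < h n) → ∀ N, ∃ n, N ≤ n ∧ f n = r n}

/-! ### digits -/

/-- base `B` value -/
def vB (B : ℕ) (W : ℕ → ℕ) (n : ℕ) : ℕ :=
  Nat.rec (motive := fun _ => ℕ) 0 (fun j acc => acc + B ^ j * W j) n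

theorem vB_succ (B : ℕ) (W : ℕ → ℕ) (n : ℕ) : vB B W (n + 1) = vB B W n + B ^ n * W n := rfl

theorem vB_lt {B : ℕ} {W : ℕ → ℕ} {n : ℕ} (hW : ∀ j < n, W j < B) : vB B W n < B ^ n := by
  induction n with
  | zero => show 0 < 1; norm_num
  | succ n ih =>
    have h0 := ih (fun j hj => hW j (Nat.lt_succ_of_lt hj))
    have h1 := hW n (Nat.lt_succ_self n)
    rw [vB_succ, pow_succ]
    have h2 : B ^ n * W n + B ^ n ≤ B ^ n * B := by
      have := Nat.mul_le_mul_left (B ^ n) (show W n + 1 ≤ B from h1)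
      rw [Nat.mul_add, Nat.mul_one] at this
      exact this
    omega

/-- digits -/
def dg (B m j : ℕ) : ℕ := (m / B ^ j) % B

theorem dg_vB {B : ℕ} {W : ℕ → ℕ} {n j : ℕ} (hW : ∀ j < n, W j < B) (h : j < n) :
    dg B (vB B W n) j = W j := by
  have hB : 0 < B := lt_of_le_of_lt (Nat.zero_le _) (hW j h)
  induction n with
  | zero => exact absurd h (Nat.not_lt_zero j)
  | succ n ih =>
    have hpos : 0 < B ^ n := by positivity
    unfold dg
    rw [vB_succ]
    rcases Nat.lt_or_eq_of_le (Nat.lt_succ_iff.1 h) with h' | rfl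
    · have h1 := ih (fun j hj => hW j (Nat.lt_succ_of_lt hj)) h'
      unfold dg at h1
      obtain ⟨d, rfl⟩ := Nat.exists_eq_add_of_lt h'
      have h2 : B ^ (j + d + 1) * W (j + d + 1) = B ^ j * (B * (B ^ d * W (j + d + 1))) := by ring
      rw [h2, Nat.add_mul_div_left _ _ (by positivity), Nat.add_mul_mod_self_left]
      exact h1
    · rw [Nat.add_mul_div_left _ _ hpos,
        Nat.div_eq_of_lt (vB_lt (fun j' hj => hW j' (Nat.lt_succ_of_lt hj))), Nat.zero_add]
      exact Nat.mod_eq_of_lt (hW j h)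

theorem cpow {α : Type} [Primcodable α] {f g : α → ℕ} (hf : Computable f) (hg : Computable g) :
    Computable fun a => f a ^ g a := by
  have h3 : Computable₂ fun (a : α) (p : ℕ × ℕ) => p.2 * f a :=
    (cmul (Computable.snd.comp Computable.snd) (hf.comp Computable.fst)).to₂
  refine (Computable.nat_rec hg (Computable.const 1) h3).of_eq fun a => ?_
  generalize g a = n
  induction n with
  | zero => rfl
  | succ n ih => rw [pow_succ, ← ih]

theorem vB_comp {α : Type} [Primcodable α] {B : α → ℕ} {W : α → ℕ → ℕ} {n : α → ℕ}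
    (hB : Computable B) (hW : Computable₂ W)
    (hn : Computable n) : Computable fun a => vB (B a) (W a) (n a) := by
  have h3 : Computable₂ fun (a : α) (p : ℕ × ℕ) => p.2 + B a ^ p.1 * W a p.1 := by
    have c1 : Computable fun q : α × (ℕ × ℕ) => q.2.1 := Computable.fst.comp Computable.snd
    have c2 : Computable fun q : α × (ℕ × ℕ) => q.2.2 := Computable.snd.comp Computable.snd
    exact (cadd c2 (cmul (cpow (hB.comp Computable.fst) c1) (hW.comp Computable.fst c1))).to₂
  exact (Computable.nat_rec hn (Computable.const 0) h3).of_eq fun a => rfl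

theorem dg_comp {α : Type} [Primcodable α] {B m j : α → ℕ}
    (hB : Computable B) (hm : Computable m) (hj : Computable j) :
    Computable fun a => dg (B a) (m a) (j a) := cmod (cdiv hm (cpow hB hj)) hB

/-! ### one round -/

/-- level of `s` -/
def lvS (s : ℕ) : ℕ := Nat.log 2 s - 1

theorem lvS_eq {j i : ℕ} (h : i < 2 ^ (j + 1)) : lvS (2 ^ (j + 1) + i) = j := by
  unfold lvS
  have : Nat.log 2 (2 ^ (j + 1) + i) = j + 1 := by
    refine (Nat.log_eq_iff (Or.inl (by omega))).2 ⟨by omega, ?_⟩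
    have : 2 ^ (j + 1 + 1) = 2 ^ (j + 1) + 2 ^ (j + 1) := by ring
    omega
  rw [this]; omega

theorem lvS_comp : Computable lvS := csub log2_comp (Computable.const 1)

/-- first components -/
def v1 (W : ℕ → ℕ) (x : ℕ) : ℕ := (W x).unpair.1
/-- second components -/
def v2 (W : ℕ → ℕ) (x : ℕ) : ℕ := (W x).unpair.2

/-- the test for the item used at `s` -/
def hfF (B lo : ℕ → ℕ) (W : ℕ → ℕ) (s x : ℕ) : Option ℕ :=
  bif ((!decide (x < lo (lvS s))) && ((W x).unpair.2 == 1)) &&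
    (cnt (fun y => (W y).unpair.2) (lo (lvS s)) x == s - 2 ^ (lvS s + 1))
  then some (dg (B (lvS s)) (W x).unpair.1 (s - 2 ^ (lvS s + 1))) else none

/-- the function of one round -/
def hf (B lo hi : ℕ → ℕ) (W : ℕ → ℕ) (s : ℕ) : ℕ := (fs (hfF B lo W s) (hi (lvS s))).getD 0

theorem hf_val {B lo hi : ℕ → ℕ} {W : ℕ → ℕ} {j x i : ℕ} (h1 : lo j ≤ x) (h2 : x < hi j)
    (h3 : (W x).unpair.2 = 1) (h4 : cnt (fun y => (W y).unpair.2) (lo j) x = i)
    (h5 : i < 2 ^ (j + 1)) :
    hf B lo hi W (2 ^ (j + 1) + i) = dg (B j) (W x).unpair.1 i := by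
  have hl := lvS_eq h5
  have hs : 2 ^ (j + 1) + i - 2 ^ (j + 1) = i := by omega
  have hx : hfF B lo W (2 ^ (j + 1) + i) x = some (dg (B j) (W x).unpair.1 i) := by
    unfold hfF
    rw [hl, hs, decide_eq_false (not_lt.2 h1), h3, h4]
    simp
  unfold hf
  rw [hl]
  obtain ⟨z, hz⟩ := fs_exists h2 hx
  rw [hz, Option.getD_some]
  obtain ⟨y, hy, hyz⟩ := fs_some hz
  unfold hfF at hyz
  rw [hl, hs] at hyz
  rcases hb : ((!decide (y < lo j)) && ((W y).unpair.2 == 1)) &&
    (cnt (fun y => (W y).unpair.2) (lo j) y == i) with _ | _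
  · rw [hb] at hyz; exact absurd hyz (by simp)
  · rw [hb] at hyz
    simp only [Bool.and_eq_true, Bool.not_eq_true', decide_eq_false_iff_not, beq_iff_eq,
      not_lt] at hb
    obtain ⟨⟨hb1, hb2⟩, hb3⟩ := hb
    have : x = y := cnt_inj h1 hb1 h3 hb2 (h4.trans hb3.symm)
    subst this
    exact (Option.some.inj hyz).symm

theorem fs_congr' {β : Type} {f g : ℕ → Option β} {n : ℕ} (h : ∀ k < n, f k = g k) :
    fs f n = fs g n := fs_congr h

theorem hf_rec {O : Set (ℕ →. ℕ)} {B lo hi : ℕ → ℕ} (hB : Computable B) (hlo : Computable lo)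
    (hhi : Computable hi) {W : ℕ → ℕ} (hW : RecT O W) : RecT O (hf B lo hi W) := by
  have hΦ : Computable₂ fun (σ : List ℕ) (s : ℕ) => hf B lo hi (fun j => σ.getD j 0) s := by
    have a1 : Computable₂ fun (q : (List ℕ × ℕ) × ℕ) (y : ℕ) => (q.1.1.getD y 0).unpair.2 :=
      Computable.snd.comp (Computable.unpair.comp ((Primrec.list_getD 0).to_comp.comp
        (Computable.fst.comp (Computable.fst.comp Computable.fst)) Computable.snd))
    have a2 : Computable fun q : (List ℕ × ℕ) × ℕ => (q.1.1.getD q.2 0) :=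
      (Primrec.list_getD 0).to_comp.comp (Computable.fst.comp Computable.fst) Computable.snd
    have a0 : Computable fun q : (List ℕ × ℕ) × ℕ => lvS q.1.2 :=
      lvS_comp.comp (Computable.snd.comp Computable.fst)
    have a3 : Computable fun q : (List ℕ × ℕ) × ℕ => q.1.2 - 2 ^ (lvS q.1.2 + 1) :=
      csub (Computable.snd.comp Computable.fst) (pow2_comp.comp (cadd a0 (Computable.const 1)))
    have a4 : Computable₂ fun (r : List ℕ × ℕ) (k : ℕ) => hfF B lo (fun j => r.1.getD j 0) r.2 k :=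
      Computable.cond (cand (cand (cnot (clt Computable.snd (hlo.comp a0)))
          (cbeqN (Computable.snd.comp (Computable.unpair.comp a2)) (Computable.const 1)))
        (cbeqN (cnt_comp a1 (hlo.comp a0) Computable.snd) a3))
        (Computable.option_some.comp (dg_comp (hB.comp a0)
          (Computable.fst.comp (Computable.unpair.comp a2)) a3)) (Computable.const none)
    exact Computable.option_getD (fs_comp a4 (hhi.comp (lvS_comp.comp Computable.snd)))
      (Computable.const 0)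
  have hu : Computable fun s : ℕ => hi (lvS s) := hhi.comp lvS_comp
  refine (tr_pre hW hu hΦ).of_eq ?_
  intro s
  congr 1
  show (fs (hfF B lo (fun j => (pre W (hi (lvS s))).getD j 0) s) (hi (lvS s))).getD 0 =
    (fs (hfF B lo W s) (hi (lvS s))).getD 0
  congr 1
  refine fs_congr ?_
  intro x hx
  unfold hfF
  have e1 : (pre W (hi (lvS s))).getD x 0 = W x := pre_getD hx
  have e2 : cnt (fun y => ((pre W (hi (lvS s))).getD y 0).unpair.2) (lo (lvS s)) x =
      cnt (fun y => (W y).unpair.2) (lo (lvS s)) x := by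
    refine cnt_congr ?_
    intro y hy
    rw [pre_getD (lt_trans hy hx)]
  simp only [e1, e2]

/-- the block value of `p` on level `j` -/
def bv (B : ℕ → ℕ) (p : ℕ → ℕ) (j : ℕ) : ℕ := vB (B j) (fun i => p (2 ^ (j + 1) + i)) (2 ^ (j + 1))

theorem bv_comp {B p : ℕ → ℕ} (hB : Computable B) (hp : Computable p) : Computable (bv B p) := by
  have h1 : Computable fun j : ℕ => 2 ^ (j + 1) :=
    pow2_comp.comp (cadd Computable.id (Computable.const 1))
  exact vB_comp hB (hp.comp (cadd (h1.comp Computable.fst) Computable.snd)).to₂ h1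

theorem not_ioe {G f : ℕ → ℕ} (h : f ∉ IOE G) : ∃ p : ℕ → ℕ, Computable p ∧ (∀ n, p n < G n) ∧
    ∃ N, ∀ n, N ≤ n → f n ≠ p n := by
  unfold IOE at h
  simp only [Set.mem_ofPred_eq] at h
  push Not at h
  obtain ⟨r, hr, hlt, N, hN⟩ := h
  exact ⟨r, hr, hlt, N, hN⟩

/-- One round: short lists are evaded. -/
theorem one_round {O : Set (ℕ →. ℕ)} {B lo hi G : ℕ → ℕ} (hB : Computable B)
    (hlo : Computable lo) (hhi : Computable hi) {j0 : ℕ}
    (hG : ∀ j, j0 ≤ j → ∀ i < 2 ^ (j + 1), G (2 ^ (j + 1) + i) ≤ B j)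
    (hno : ∀ f, RecT O f → f ∉ IOE G) {W : ℕ → ℕ} (hW : RecT O W)
    (hc : ∀ j, j0 ≤ j → cnt (v2 W) (lo j) (hi j) ≤ 2 ^ (j + 1)) :
    ∃ q : ℕ → ℕ, Computable q ∧ ∃ j1, ∀ j, j1 ≤ j → q j < B j ^ (2 ^ (j + 1)) ∧
      ∀ x, lo j ≤ x → x < hi j → v2 W x = 1 → v1 W x ≠ q j := by
  obtain ⟨p, hp, hpG, N, hN⟩ := not_ioe (hno _ (hf_rec hB hlo hhi hW))
  refine ⟨bv B p, bv_comp hB hp, max j0 N, ?_⟩
  intro j hj
  have hj0 : j0 ≤ j := le_trans (le_max_left _ _) hj
  have hjN : N ≤ j := le_trans (le_max_right _ _) hj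
  have hpB : ∀ i < 2 ^ (j + 1), p (2 ^ (j + 1) + i) < B j := fun i hi =>
    lt_of_lt_of_le (hpG _) (hG j hj0 i hi)
  refine ⟨vB_lt hpB, ?_⟩
  intro x hx1 hx2 hx3 hx4
  have hlt : cnt (v2 W) (lo j) x < 2 ^ (j + 1) :=
    lt_of_lt_of_le (cnt_lt hx2 hx1 hx3) (hc j hj0)
  have h1 := hf_val (B := B) hx1 hx2 hx3 rfl hlt
  have h2 : v1 W x = (W x).unpair.1 := rfl
  rw [← h2, hx4] at h1
  have h3 : dg (B j) (bv B p j) (cnt (v2 W) (lo j) x) = p (2 ^ (j + 1) + cnt (v2 W) (lo j) x) :=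
    dg_vB (W := fun i => p (2 ^ (j + 1) + i)) hpB hlt
  refine hN (2 ^ (j + 1) + cnt (v2 W) (lo j) x) ?_ (h1.trans h3)
  have : j < 2 ^ j := Nat.lt_two_pow_self
  have : 2 ^ (j + 1) = 2 ^ j + 2 ^ j := by ring
  omega

theorem cnt_card' (p : ℕ → ℕ) (a k : ℕ) :
    cnt p a k = ((Finset.Ico a k).filter fun j => p j = 1).card := by
  induction k with
  | zero => simp [cnt]
  | succ k ih =>
    rw [cnt_succ, ih]
    by_cases h : a ≤ k
    · rw [← Finset.insert_Ico_right_eq_Ico_add_one h, Finset.filter_insert]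
      by_cases hp : p k = 1
      · rw [if_pos ⟨h, hp⟩, if_pos hp, Finset.card_insert_of_notMem]
        simp
      · rw [if_neg (fun hh => hp hh.2), if_neg hp]; rfl
    · rw [if_neg (fun hh => h hh.1), Finset.Ico_eq_empty (by omega), Finset.Ico_eq_empty (by omega)]
      simp

theorem cnt_hit {p : ℕ → ℕ} {a k K : ℕ} (h : K < cnt p a k) :
    ∃ x, a ≤ x ∧ x < k ∧ p x = 1 ∧ cnt p a x = K := by
  induction k with
  | zero => exact absurd h (Nat.not_lt_zero _)
  | succ k ih =>
    rw [cnt_succ] at h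
    by_cases h1 : K < cnt p a k
    · obtain ⟨x, h2, h3, h4, h5⟩ := ih h1
      exact ⟨x, h2, Nat.lt_succ_of_lt h3, h4, h5⟩
    · by_cases h2 : a ≤ k ∧ p k = 1
      · rw [if_pos h2] at h
        exact ⟨k, h2.1, Nat.lt_succ_self k, h2.2, by omega⟩
      · rw [if_neg h2] at h
        omega

/-- indicator of the selected items of the same residue -/
def smb (m : ℕ) (W : ℕ → ℕ) (a y : ℕ) : ℕ :=
  bif ((W y).unpair.2 == 1) && ((W y).unpair.1 % m == a) then 1 else 0

theorem smb_iff (m : ℕ) (W : ℕ → ℕ) (a y : ℕ) :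
    smb m W a y = 1 ↔ v2 W y = 1 ∧ v1 W y % m = a := by
  unfold smb v1 v2
  rcases hb : ((W y).unpair.2 == 1) && ((W y).unpair.1 % m == a) with _ | _
  · simp only [cond_false, zero_ne_one, false_iff]
    rintro ⟨h1, h2⟩
    rw [h1, h2] at hb
    simp at hb
  · simp only [cond_true, true_iff]
    simpa using hb

/-- the marked items of the first round -/
def w0 (Pw lo gr : ℕ → ℕ) (W : ℕ → ℕ) (x : ℕ) : ℕ :=
  Nat.pair ((W x).unpair.1 % Pw (gr x))
    (bif ((W x).unpair.2 == 1) && (cnt (smb (Pw (gr x)) W ((W x).unpair.1 % Pw (gr x))) (lo (gr x)) x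
      == 2 ^ (gr x + 1)) then 1 else 0)

/-- the items of the second round -/
def w1 (Pw gr q : ℕ → ℕ) (W : ℕ → ℕ) (x : ℕ) : ℕ :=
  Nat.pair ((W x).unpair.1 / Pw (gr x))
    (bif ((W x).unpair.2 == 1) && ((W x).unpair.1 % Pw (gr x) == q (gr x)) then 1 else 0)

theorem w0_rec {O : Set (ℕ →. ℕ)} {Pw lo gr : ℕ → ℕ} (hP : Computable Pw) (hlo : Computable lo)
    (hgr : Computable gr) {W : ℕ → ℕ} (hW : RecT O W) : RecT O (w0 Pw lo gr W) := by
  have hΦ : Computable₂ fun (σ : List ℕ) (x : ℕ) => w0 Pw lo gr (fun j => σ.getD j 0) x := by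
    have g0 : Computable₂ fun (σ : List ℕ) (x : ℕ) => σ.getD x 0 := (Primrec.list_getD 0).to_comp
    have a1 : Computable fun q : List ℕ × ℕ => (q.1.getD q.2 0).unpair.1 :=
      Computable.fst.comp (Computable.unpair.comp g0)
    have a2 : Computable fun q : List ℕ × ℕ => (q.1.getD q.2 0).unpair.2 :=
      Computable.snd.comp (Computable.unpair.comp g0)
    have b1 : Computable fun q : List ℕ × ℕ => Pw (gr q.2) := hP.comp (hgr.comp Computable.snd)
    have b2 : Computable fun q : List ℕ × ℕ => (q.1.getD q.2 0).unpair.1 % Pw (gr q.2) :=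
      cmod a1 b1
    have c0 : Computable fun r : (List ℕ × ℕ) × ℕ => r.1.1.getD r.2 0 :=
      (Primrec.list_getD 0).to_comp.comp (Computable.fst.comp Computable.fst) Computable.snd
    have c1 : Computable fun r : (List ℕ × ℕ) × ℕ => (r.1.1.getD r.2 0).unpair.1 :=
      Computable.fst.comp (Computable.unpair.comp c0)
    have c2 : Computable fun r : (List ℕ × ℕ) × ℕ => (r.1.1.getD r.2 0).unpair.2 :=
      Computable.snd.comp (Computable.unpair.comp c0)
    have d1 : Computable fun r : (List ℕ × ℕ) × ℕ => ((r.1.1.getD r.2 0).unpair.2 == 1) :=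
      cbeqN c2 (Computable.const 1)
    have d2 : Computable fun r : (List ℕ × ℕ) × ℕ => ((r.1.1.getD r.2 0).unpair.1 % Pw (gr r.1.2)
        == (r.1.1.getD r.1.2 0).unpair.1 % Pw (gr r.1.2)) :=
      cbeqN (cmod c1 (b1.comp Computable.fst)) (b2.comp Computable.fst)
    have d3 : Computable fun r : (List ℕ × ℕ) × ℕ => smb (Pw (gr r.1.2))
        (fun j => r.1.1.getD j 0) ((r.1.1.getD r.1.2 0).unpair.1 % Pw (gr r.1.2)) r.2 :=
      Computable.cond (cand d1 d2) (Computable.const 1) (Computable.const 0)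
    have c3 : Computable₂ fun (q : List ℕ × ℕ) (y : ℕ) => smb (Pw (gr q.2))
        (fun j => q.1.getD j 0) ((q.1.getD q.2 0).unpair.1 % Pw (gr q.2)) y := d3
    have d4 : Computable fun q : List ℕ × ℕ => cnt (smb (Pw (gr q.2))
        (fun j => q.1.getD j 0) ((q.1.getD q.2 0).unpair.1 % Pw (gr q.2))) (lo (gr q.2)) q.2 :=
      cnt_comp c3 (hlo.comp (hgr.comp Computable.snd)) Computable.snd
    have d5 : Computable fun q : List ℕ × ℕ => 2 ^ (gr q.2 + 1) :=
      pow2_comp.comp (cadd (hgr.comp Computable.snd) (Computable.const 1))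
    have d6 : Computable fun q : List ℕ × ℕ => ((q.1.getD q.2 0).unpair.2 == 1) :=
      cbeqN a2 (Computable.const 1)
    have d7 := Computable.cond (cand d6 (cbeqN d4 d5)) (Computable.const 1) (Computable.const 0)
    have d8 := cpair b2 d7
    exact d8
  have hu : Computable fun s : ℕ => s + 1 := cadd Computable.id (Computable.const 1)
  refine (tr_pre hW hu hΦ).of_eq ?_
  intro x
  congr 1
  have e1 : (pre W (x + 1)).getD x 0 = W x := pre_getD (Nat.lt_succ_self x)
  have e2 : cnt (smb (Pw (gr x)) (fun j => (pre W (x + 1)).getD j 0)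
      ((W x).unpair.1 % Pw (gr x))) (lo (gr x)) x =
      cnt (smb (Pw (gr x)) W ((W x).unpair.1 % Pw (gr x))) (lo (gr x)) x := by
    refine cnt_congr ?_
    intro y hy
    unfold smb
    simp only
    rw [pre_getD (Nat.lt_succ_of_lt hy)]
  show w0 Pw lo gr (fun j => (pre W (x + 1)).getD j 0) x = w0 Pw lo gr W x
  unfold w0
  simp only [e1]
  rw [e2]

theorem w1_rec {O : Set (ℕ →. ℕ)} {Pw gr q : ℕ → ℕ} (hP : Computable Pw) (hq : Computable q)
    (hgr : Computable gr) {W : ℕ → ℕ} (hW : RecT O W) : RecT O (w1 Pw gr q W) := by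
  have hΦ : Computable₂ fun (σ : List ℕ) (x : ℕ) => w1 Pw gr q (fun j => σ.getD j 0) x := by
    have g0 : Computable₂ fun (σ : List ℕ) (x : ℕ) => σ.getD x 0 := (Primrec.list_getD 0).to_comp
    have a1 : Computable fun q : List ℕ × ℕ => (q.1.getD q.2 0).unpair.1 :=
      Computable.fst.comp (Computable.unpair.comp g0)
    have a2 : Computable fun q : List ℕ × ℕ => (q.1.getD q.2 0).unpair.2 :=
      Computable.snd.comp (Computable.unpair.comp g0)
    have b1 : Computable fun q : List ℕ × ℕ => Pw (gr q.2) := hP.comp (hgr.comp Computable.snd)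
    exact cpair (cdiv a1 b1) (Computable.cond (cand (cbeqN a2 (Computable.const 1))
      (cbeqN (cmod a1 b1) (hq.comp (hgr.comp Computable.snd))))
        (Computable.const 1) (Computable.const 0))
  have hu : Computable fun s : ℕ => s + 1 := cadd Computable.id (Computable.const 1)
  refine (tr_pre hW hu hΦ).of_eq ?_
  intro x
  congr 1
  have e1 : (pre W (x + 1)).getD x 0 = W x := pre_getD (Nat.lt_succ_self x)
  show w1 Pw gr q (fun j => (pre W (x + 1)).getD j 0) x = w1 Pw gr q W x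
  unfold w1
  simp only [e1]

/-- counting marked items -/
theorem marked_count (m K lo hi : ℕ) (W : ℕ → ℕ) (mk : ℕ → ℕ)
    (hmk : ∀ x, lo ≤ x → x < hi → mk x = 1 → v2 W x = 1 ∧ cnt (smb m W (v1 W x % m)) lo x = K) :
    cnt mk lo hi * (K + 1) ≤ cnt (v2 W) lo hi := by
  classical
  rw [cnt_card', cnt_card']
  let M := (Finset.Ico lo hi).filter fun j => mk j = 1
  let C : ℕ → Finset ℕ := fun x => (Finset.Ico lo (x + 1)).filter fun y =>
    smb m W (v1 W x % m) y = 1
  have hC : ∀ x ∈ M, (C x).card = K + 1 := by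
    intro x hx
    obtain ⟨h1, h2⟩ := Finset.mem_filter.1 hx
    rw [Finset.mem_Ico] at h1
    obtain ⟨h3, h4⟩ := hmk x h1.1 h1.2 h2
    have h5 : cnt (smb m W (v1 W x % m)) lo (x + 1) = K + 1 := by
      rw [cnt_succ, h4, if_pos ⟨h1.1, (smb_iff _ _ _ _).2 ⟨h3, rfl⟩⟩]
    rw [cnt_card'] at h5
    exact h5
  have key : ∀ x ∈ M, ∀ x' ∈ M, x < x' → Disjoint (C x) (C x') := by
    intro x hx x' hx' hlt
    rw [Finset.disjoint_left]
    intro y hy hy'
    obtain ⟨h1, h2⟩ := Finset.mem_filter.1 hx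
    obtain ⟨h1', h2'⟩ := Finset.mem_filter.1 hx'
    rw [Finset.mem_Ico] at h1 h1'
    obtain ⟨h3, h4⟩ := hmk x h1.1 h1.2 h2
    obtain ⟨h3', h4'⟩ := hmk x' h1'.1 h1'.2 h2'
    have h5 := ((smb_iff _ _ _ _).1 (Finset.mem_filter.1 hy).2).2
    have h6 := ((smb_iff _ _ _ _).1 (Finset.mem_filter.1 hy').2).2
    have h7 : v1 W x % m = v1 W x' % m := h5.symm.trans h6
    have h8 : cnt (smb m W (v1 W x % m)) lo (x + 1) = K + 1 := by
      rw [cnt_succ, h4, if_pos ⟨h1.1, (smb_iff _ _ _ _).2 ⟨h3, rfl⟩⟩]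
    have h9 := cnt_mono (smb m W (v1 W x % m)) lo (show x + 1 ≤ x' from hlt)
    rw [h8, h7, h4'] at h9
    omega
  have hdis : (M : Set ℕ).PairwiseDisjoint C := by
    intro x hx x' hx' hne
    rcases lt_or_gt_of_ne hne with h | h
    · exact key x hx x' hx' h
    · exact (key x' hx' x hx h).symm
  have h1 : (M.biUnion C).card = ∑ x ∈ M, (C x).card := Finset.card_biUnion hdis
  rw [Finset.sum_congr rfl hC, Finset.sum_const, smul_eq_mul] at h1
  rw [← h1]
  refine Finset.card_le_card ?_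
  intro y hy
  obtain ⟨x, hx, hy⟩ := Finset.mem_biUnion.1 hy
  obtain ⟨h2, h3⟩ := Finset.mem_filter.1 hy
  obtain ⟨h4, _⟩ := Finset.mem_filter.1 hx
  rw [Finset.mem_Ico] at h2 h4
  rw [Finset.mem_filter, Finset.mem_Ico]
  exact ⟨⟨h2.1, by omega⟩, ((smb_iff _ _ _ _).1 h3).1⟩

/-- Many rounds. -/
theorem rounds {O : Set (ℕ →. ℕ)} {B lo hi gr G : ℕ → ℕ} (hB : Computable B)
    (hlo : Computable lo) (hhi : Computable hi) (hgr : Computable gr)
    (hgr' : ∀ j x, lo j ≤ x → x < hi j → gr x = j) {j0 : ℕ}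
    (hG : ∀ j, j0 ≤ j → ∀ i < 2 ^ (j + 1), G (2 ^ (j + 1) + i) ≤ B j)
    (hno : ∀ f, RecT O f → f ∉ IOE G) (R : ℕ) : ∀ {W : ℕ → ℕ}, RecT O W →
    (∀ j, j0 ≤ j → cnt (v2 W) (lo j) (hi j) < (2 ^ (j + 1) + 1) ^ (R + 1)) →
    ∃ q : ℕ → ℕ, Computable q ∧ ∃ j1, ∀ j, j1 ≤ j → q j < (B j ^ (2 ^ (j + 1))) ^ (R + 1) ∧
      ∀ x, lo j ≤ x → x < hi j → v2 W x = 1 → v1 W x ≠ q j := by
  induction R with
  | zero =>
    intro W hW hc
    obtain ⟨q, h1, j1, h2⟩ := one_round hB hlo hhi hG hno hW (fun j hj => by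
      have := hc j hj
      rw [zero_add, pow_one] at this
      omega)
    refine ⟨q, h1, j1, fun j hj => ?_⟩
    rw [zero_add, pow_one]
    exact h2 j hj
  | succ R ih =>
    intro W hW hc
    let Pw : ℕ → ℕ := fun j => (B j ^ (2 ^ (j + 1))) ^ (R + 1)
    have hP : Computable Pw := cpow (cpow hB (pow2_comp.comp (cadd Computable.id
      (Computable.const 1)))) (Computable.const _)
    have hW0 : RecT O (w0 Pw lo gr W) := w0_rec hP hlo hgr hW
    obtain ⟨q0, hq0, j1, hj1⟩ := ih hW0 (by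
      intro j hj
      have h1 := marked_count (Pw j) (2 ^ (j + 1)) (lo j) (hi j) W (v2 (w0 Pw lo gr W)) (by
        intro x hx1 hx2 hx3
        have hg := hgr' j x hx1 hx2
        unfold v2 w0 at hx3
        rw [hg, Nat.unpair_pair] at hx3
        rcases hb : ((W x).unpair.2 == 1) && (cnt (smb (Pw j) W ((W x).unpair.1 % Pw j)) (lo j) x
          == 2 ^ (j + 1)) with _ | _
        · rw [hb] at hx3
          exact absurd hx3 (by simp)
        · rw [Bool.and_eq_true, beq_iff_eq, beq_iff_eq] at hb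
          exact hb)
      have h2 := hc j hj
      rw [pow_succ] at h2
      exact lt_of_mul_lt_mul_right (lt_of_le_of_lt h1 h2) (Nat.zero_le _))
    have hW1 : RecT O (w1 Pw gr q0 W) := w1_rec hP hq0 hgr hW
    have hw1 : ∀ j x, lo j ≤ x → x < hi j → v2 W x = 1 → v1 W x % Pw j = q0 j →
        v2 (w1 Pw gr q0 W) x = 1 ∧ v1 (w1 Pw gr q0 W) x = v1 W x / Pw j := by
      intro j x hx1 hx2 hx3 hx4
      have hg := hgr' j x hx1 hx2
      unfold v2 at hx3
      unfold v1 at hx4
      unfold v1 v2 w1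
      rw [hg, Nat.unpair_pair, hx3, hx4]
      simp
    have hw1' : ∀ j x, lo j ≤ x → x < hi j → v2 (w1 Pw gr q0 W) x = 1 →
        smb (Pw j) W (q0 j) x = 1 := by
      intro j x hx1 hx2 hx3
      have hg := hgr' j x hx1 hx2
      unfold v2 w1 at hx3
      rw [hg, Nat.unpair_pair] at hx3
      exact hx3
    obtain ⟨q1, hq1, j2, hj2⟩ := one_round (j0 := max j0 j1) hB hlo hhi
      (fun j hj => hG j (le_trans (le_max_left _ _) hj)) hno hW1 (by
      intro j hj
      by_contra hcon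
      push Not at hcon
      have h1 : 2 ^ (j + 1) < cnt (smb (Pw j) W (q0 j)) (lo j) (hi j) := by
        refine lt_of_lt_of_le hcon ?_
        rw [cnt_card', cnt_card']
        refine Finset.card_le_card ?_
        intro x hx
        rw [Finset.mem_filter, Finset.mem_Ico] at hx ⊢
        exact ⟨hx.1, hw1' j x hx.1.1 hx.1.2 hx.2⟩
      obtain ⟨x, hx1, hx2, hx3, hx4⟩ := cnt_hit h1
      have hg := hgr' j x hx1 hx2
      obtain ⟨hx5, hx6⟩ := (smb_iff _ _ _ _).1 hx3
      have h2 : v2 (w0 Pw lo gr W) x = 1 ∧ v1 (w0 Pw lo gr W) x = q0 j := by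
        unfold v2 at hx5
        unfold v1 at hx6
        unfold v1 v2 w0
        rw [hg, Nat.unpair_pair, hx5, hx6, hx4]
        simp
      exact (hj1 j (le_trans (le_max_right _ _) hj)).2 x hx1 hx2 h2.1 h2.2)
    refine ⟨fun j => q0 j + Pw j * q1 j, cadd hq0 (cmul hP hq1), max j1 j2, ?_⟩
    intro j hj
    obtain ⟨h1, h2⟩ := hj1 j (le_trans (le_max_left _ _) hj)
    obtain ⟨h3, h4⟩ := hj2 j (le_trans (le_max_right _ _) hj)
    have h1' : q0 j < Pw j := h1
    constructor
    · rw [pow_succ]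
      show q0 j + Pw j * q1 j < Pw j * _
      have h5 : Pw j * q1 j + Pw j ≤ Pw j * B j ^ 2 ^ (j + 1) := by
        have := Nat.mul_le_mul_left (Pw j) (show q1 j + 1 ≤ B j ^ 2 ^ (j + 1) from h3)
        rw [Nat.mul_add, Nat.mul_one] at this
        exact this
      omega
    · intro x hx1 hx2 hx3 hx4
      have h5 : v1 W x % Pw j = q0 j := by
        rw [hx4, Nat.add_mul_mod_self_left]
        exact Nat.mod_eq_of_lt h1'
      have h6 : v1 W x / Pw j = q1 j := by
        rw [hx4, Nat.add_mul_div_left _ _ (by omega), Nat.div_eq_of_lt h1', Nat.zero_add]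
      obtain ⟨h7, h8⟩ := hw1 j x hx1 hx2 hx3 h5
      exact h4 x hx1 hx2 h7 (h8.trans h6)

end Pool.Agent.V11258.IOE
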